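import Pool.Agent.W95.BK.Stm

/-!
# Functoriality of the action on the Berkovich projective line (project BK, part FUNC)
-/

open Polynomial Topology Filter MeasureTheory

namespace Pool.Agent.W103.BK

open Pool.Agent.W95.BK

universe u

section alg
variable {K : Type u} [Field K]

lemma hom_C_zero (c : K) (u v : K[X]) : hom 0 (C c) u v = C c := by
  simp [hom]

lemma hom_pow {M : ℕ} {a : K[X]} (ha : a.natDegree ≤ M) (u v : K[X]) (i : ℕ) :
    hom (i * M) (a ^ i) u v = hom M a u v ^ i := by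
  induction i with
  | zero =>
    simp [hom]
  | succ i ih =>
    rw [pow_succ, Nat.succ_mul, hom_mul (natDegree_pow_le_of_le i ha) ha, ih, pow_succ]

/-- associativity of the homogeneous substitution -/
lemma hom_assoc {N M : ℕ} (h : K[X]) {a b : K[X]} (ha : a.natDegree ≤ M) (hb : b.natDegree ≤ M)
    (u v : K[X]) :
    hom (N * M) (hom N h a b) u v = hom N h (hom M a u v) (hom M b u v) := by
  conv_lhs => rw [show hom N h a b = ∑ i ∈ Finset.range (N + 1), C (h.coeff i) * a ^ i * b ^ (N - i)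
    from rfl]
  rw [hom_sum]
  conv_rhs => rw [hom]
  refine Finset.sum_congr rfl fun i hi => ?_
  have hi' : i ≤ N := by have := Finset.mem_range.1 hi; omega
  have e : N * M = (0 + i * M) + (N - i) * M := by
    rw [zero_add, ← add_mul]; congr 1; omega
  have h0 : (C (h.coeff i)).natDegree ≤ 0 := by simp
  have h1 : (a ^ i).natDegree ≤ i * M := natDegree_pow_le_of_le i ha
  have h2 : (b ^ (N - i)).natDegree ≤ (N - i) * M := natDegree_pow_le_of_le _ hb
  have h3 : (C (h.coeff i) * a ^ i).natDegree ≤ 0 + i * M := natDegree_mul_le_of_le h0 h1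
  rw [e, hom_mul h3 h2, hom_mul h0 h1, hom_C_zero, hom_pow ha, hom_pow hb]

lemma hom_C_mul (N : ℕ) (c : K) (h a b : K[X]) :
    hom N (C c * h) a b = C c * hom N h a b := by
  unfold hom
  rw [Finset.mul_sum]
  refine Finset.sum_congr rfl fun i _ => ?_
  rw [coeff_C_mul, C_mul]
  ring

lemma hom_sub (N : ℕ) (h k a b : K[X]) : hom N (h - k) a b = hom N h a b - hom N k a b := by
  simp only [hom, coeff_sub, C_sub, sub_mul, Finset.sum_sub_distrib]

lemma hom_X_one {N : ℕ} {h : K[X]} (hh : h.natDegree ≤ N) : hom N h X 1 = h := by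
  conv_rhs => rw [h.as_sum_range' (N + 1) (by omega)]
  unfold hom
  refine Finset.sum_congr rfl fun i _ => ?_
  rw [one_pow, mul_one, C_mul_X_pow_eq_monomial]

lemma Q_ne_zero (g : RMap K) : g.Q ≠ 0 := by
  intro h
  have hc := g.cop
  rw [h] at hc
  have hu : IsUnit g.P := isCoprime_zero_right.1 hc
  have h1 := natDegree_eq_zero_of_isUnit hu
  have h2 := g.deg_eq
  have h3 := g.pos
  rw [h, h1] at h2
  simp at h2
  omega

lemma top_ne (g : RMap K) : ¬ (g.P.coeff g.d = 0 ∧ g.Q.coeff g.d = 0) := by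
  rintro ⟨ha0, hb0⟩
  have hm := g.deg_eq
  have hp := g.pos
  rcases max_cases g.P.natDegree g.Q.natDegree with ⟨h, _⟩ | ⟨h, _⟩
  · rw [hm] at h
    have : g.P = 0 := by rw [← leadingCoeff_eq_zero, leadingCoeff, ← h, ha0]
    rw [this] at h; simp at h; omega
  · rw [hm] at h
    have : g.Q = 0 := by rw [← leadingCoeff_eq_zero, leadingCoeff, ← h, hb0]
    rw [this] at h; simp at h; omega

lemma eval_ne (g : RMap K) (w : K) : ¬ (g.P.eval w = 0 ∧ g.Q.eval w = 0) := by
  rintro ⟨ha, hb⟩
  obtain ⟨x, y, hxy⟩ := g.cop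
  have := congrArg (eval w) hxy
  simp [ha, hb] at this

end alg

section main
variable {K : Type u} [NontriviallyNormedField K] [IsUltrametricDist K] [IsAlgClosed K]

open Classical in
/-- the classical point `[p : q]` -/
noncomputable def pt (p q : K) : P1B K :=
  if q = 0 then OnePoint.infty else ((cl (p / q) : BA K) : P1B K)

omit [IsAlgClosed K] in
lemma act_infty (f : RMap K) :
    f.act OnePoint.infty = pt (f.P.coeff f.d) (f.Q.coeff f.d) := by
  unfold pt
  rfl

lemma act_cl (hA : S_ACT.{u}) (f : RMap K) (w : K) :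
    f.act ((cl w : BA K) : P1B K) = pt (f.P.eval w) (f.Q.eval w) := by
  obtain ⟨_, h1, h2, _⟩ := hA K f
  unfold pt
  split_ifs with h
  · exact h2 w h
  · exact h1 w h

lemma act_pt (hA : S_ACT.{u}) (f : RMap K) (p q : K) (hpq : ¬ (p = 0 ∧ q = 0)) :
    f.act (pt p q) = pt (∑ i ∈ Finset.range (f.d + 1), f.P.coeff i * p ^ i * q ^ (f.d - i))
      (∑ i ∈ Finset.range (f.d + 1), f.Q.coeff i * p ^ i * q ^ (f.d - i)) := by
  have hP : f.P.natDegree ≤ f.d := f.deg_eq ▸ le_max_left _ _
  have hQ : f.Q.natDegree ≤ f.d := f.deg_eq ▸ le_max_right _ _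
  by_cases hq : q = 0
  · subst hq
    have hp : p ≠ 0 := fun h => hpq ⟨h, rfl⟩
    rw [sum_eq_top, sum_eq_top]
    have : pt p (0 : K) = OnePoint.infty := by simp [pt]
    rw [this, act_infty]
    unfold pt
    by_cases h : f.Q.coeff f.d = 0
    · simp [h]
    · rw [if_neg h, if_neg (mul_ne_zero h (pow_ne_zero _ hp)),
        mul_div_mul_right _ _ (pow_ne_zero _ hp)]
  · rw [sum_eq_eval hP _ _ hq, sum_eq_eval hQ _ _ hq]
    have : pt p q = ((cl (p / q) : BA K) : P1B K) := by simp [pt, hq]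
    rw [this, act_cl hA]
    unfold pt
    by_cases h : f.Q.eval (p / q) = 0
    · simp [h]
    · rw [if_neg h, if_neg (mul_ne_zero (pow_ne_zero _ hq) h),
        mul_div_mul_left _ _ (pow_ne_zero _ hq)]

omit [IsUltrametricDist K] in
lemma ext_lam (hV : S_VAL.{u}) {x y : BA K} (h : ∀ b, lam x b = lam y b) : x = y := by
  ext f
  rw [hV K x f, hV K y f]
  congr 2
  exact Multiset.map_congr rfl fun w _ => h w

lemma comp_act (hV : S_VAL.{u}) (hA : S_ACT.{u}) (hAv : S_AVOID.{u}) (f g : RMap K)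
    (x : P1B K) : (f.comp g).act x = f.act (g.act x) := by
  have hP : f.P.natDegree ≤ f.d := f.deg_eq ▸ le_max_left _ _
  have hQ : f.Q.natDegree ≤ f.d := f.deg_eq ▸ le_max_right _ _
  have gP : g.P.natDegree ≤ g.d := g.deg_eq ▸ le_max_left _ _
  have gQ : g.Q.natDegree ≤ g.d := g.deg_eq ▸ le_max_right _ _
  induction x using OnePoint.rec with
  | infty =>
    rw [act_infty, act_infty, act_pt hA f _ _ (top_ne g)]
    have e1 : (f.comp g).P.coeff (f.comp g).d = ∑ i ∈ Finset.range (f.d + 1),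
        f.P.coeff i * g.P.coeff g.d ^ i * g.Q.coeff g.d ^ (f.d - i) :=
      coeff_hom_top f.P gP gQ
    have e2 : (f.comp g).Q.coeff (f.comp g).d = ∑ i ∈ Finset.range (f.d + 1),
        f.Q.coeff i * g.P.coeff g.d ^ i * g.Q.coeff g.d ^ (f.d - i) :=
      coeff_hom_top f.Q gP gQ
    rw [e1, e2]
  | coe y =>
    by_cases hy : HK y
    · obtain ⟨y1, hy1, e1, v1, -⟩ := (hA K g).1 y hy
      obtain ⟨y2, hy2, e2, -, l2⟩ := (hA K f).1 y1 hy1
      obtain ⟨y3, hy3, e3, -, l3⟩ := (hA K (f.comp g)).1 y hy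
      rw [e3, e1, e2]
      congr 1
      refine ext_lam hV fun b => ?_
      rw [l3, l2]
      have hq : y g.Q ≠ 0 := (hAv K y hy).1 _ (Q_ne_zero g)
      have key : ∀ h : K[X], h.natDegree ≤ f.d →
          y1 h = y (hom f.d h g.P g.Q) / y g.Q ^ f.d := by
        intro h hh
        rw [v1]
        obtain ⟨j, hj⟩ := Nat.exists_eq_add_of_le hh
        rw [hj, hom_add_right le_rfl, y.map_mul', BA.map_pow, pow_add,
          mul_comm (y g.Q ^ h.natDegree)]
        rw [mul_div_mul_left _ _ (pow_ne_zero _ hq)]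
      have hd : (f.P - C b * f.Q).natDegree ≤ f.d :=
        (natDegree_sub_le _ _).trans (max_le hP ((natDegree_C_mul_le _ _).trans hQ))
      rw [key _ hd, key _ hQ, div_div_div_cancel_right₀ (pow_ne_zero _ hq), hom_sub, hom_C_mul]
      rfl
    · unfold HK at hy
      push Not at hy
      obtain ⟨w, rfl⟩ := hy
      rw [act_cl hA, act_cl hA, act_pt hA f _ _ (eval_ne g w)]
      have e1 : (f.comp g).P.eval w = ∑ i ∈ Finset.range (f.d + 1),
          f.P.coeff i * g.P.eval w ^ i * g.Q.eval w ^ (f.d - i) := eval_hom _ _ _ _ _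
      have e2 : (f.comp g).Q.eval w = ∑ i ∈ Finset.range (f.d + 1),
          f.Q.coeff i * g.P.eval w ^ i * g.Q.eval w ^ (f.d - i) := eval_hom _ _ _ _ _
      rw [e1, e2]

omit [IsAlgClosed K] in
lemma id_act (x : P1B K) : (RMap.id K).act x = x := by
  induction x using OnePoint.rec with
  | infty =>
    rw [act_infty]
    simp [pt, RMap.id, coeff_one]
  | coe y =>
    have h1 : y (RMap.id K).Q ≠ 0 := by
      have : (RMap.id K).Q = 1 := rfl
      rw [this, BA.map_one]
      exact one_ne_zero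
    have h2 : (RMap.id K).act (y : P1B K) = ((push (RMap.id K) y h1 : BA K) : P1B K) := by
      show (if h : y (RMap.id K).Q ≠ 0 then ((push (RMap.id K) y h : BA K) : P1B K)
        else OnePoint.infty) = _
      rw [dif_pos h1]
    rw [h2]
    congr 1
    ext h
    show y (hom h.natDegree h (RMap.id K).P (RMap.id K).Q) / y (RMap.id K).Q ^ h.natDegree = y h
    have e1 : (RMap.id K).P = X := rfl
    have e2 : (RMap.id K).Q = 1 := rfl
    rw [e1, e2, hom_X_one le_rfl, BA.map_one, one_pow, div_one]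

end main

theorem main : S_VAL.{u} → S_ACT.{u} → S_AVOID.{u} → S_FUNC.{u} := by
  intro hV hA hAv K _ _ _
  exact ⟨fun f g x => comp_act hV hA hAv f g x, fun x => id_act x⟩

end Pool.Agent.W103.BK
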