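import Pool.Agent.W622.BK.Stm

set_option autoImplicit false

namespace Pool.Agent.W103.BK

open Module Pool.Agent.W622.BK

universe u

section

variable {k : Type u} [Field k] {L : Type u} [LieRing L] [LieAlgebra k L]

/-- the central extension of `L` by `k` given by a 2-cocycle -/
def Ext (f : L →ₗ[k] L →ₗ[k] k) (_h1 : ∀ x, f x x = 0)
    (_h2 : ∀ x y z, f ⁅x, y⁆ z + f ⁅y, z⁆ x + f ⁅z, x⁆ y = 0) : Type u := L × k

variable (f : L →ₗ[k] L →ₗ[k] k) (h1 : ∀ x, f x x = 0)
    (h2 : ∀ x y z, f ⁅x, y⁆ z + f ⁅y, z⁆ x + f ⁅z, x⁆ y = 0)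

noncomputable instance : AddCommGroup (Ext f h1 h2) := inferInstanceAs (AddCommGroup (L × k))
noncomputable instance : Module k (Ext f h1 h2) := inferInstanceAs (Module k (L × k))

/-- the first component -/
noncomputable def fstL : Ext f h1 h2 →ₗ[k] L := LinearMap.fst k L k
/-- the second component -/
noncomputable def sndL : Ext f h1 h2 →ₗ[k] k := LinearMap.snd k L k

theorem ext_ext {x y : Ext f h1 h2} (ha : fstL f h1 h2 x = fstL f h1 h2 y)
    (hb : sndL f h1 h2 x = sndL f h1 h2 y) : x = y := Prod.ext ha hb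

include h1 in
theorem skew (x y : L) : f x y = - f y x := by
  have h := h1 (x + y)
  simp only [map_add, LinearMap.add_apply, h1, zero_add, add_zero] at h
  linear_combination h

noncomputable instance : Bracket (Ext f h1 h2) (Ext f h1 h2) where
  bracket x y := ((⁅fstL f h1 h2 x, fstL f h1 h2 y⁆, f (fstL f h1 h2 x) (fstL f h1 h2 y)) : L × k)

theorem fst_lie (x y : Ext f h1 h2) :
    fstL f h1 h2 ⁅x, y⁆ = ⁅fstL f h1 h2 x, fstL f h1 h2 y⁆ := rfl

theorem snd_lie (x y : Ext f h1 h2) :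
    sndL f h1 h2 ⁅x, y⁆ = f (fstL f h1 h2 x) (fstL f h1 h2 y) := rfl

noncomputable instance : LieRing (Ext f h1 h2) where
  add_lie x y z := by
    apply ext_ext
    · simp only [fst_lie, map_add, add_lie]
    · simp only [snd_lie, map_add, LinearMap.add_apply]
  lie_add x y z := by
    apply ext_ext
    · simp only [fst_lie, map_add, lie_add]
    · simp only [snd_lie, map_add]
  lie_self x := by
    apply ext_ext
    · simp only [fst_lie, lie_self, map_zero]
    · simp only [snd_lie, h1, map_zero]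
  leibniz_lie x y z := by
    apply ext_ext
    · simp only [fst_lie, map_add, leibniz_lie (fstL f h1 h2 x)]
    · simp only [snd_lie, fst_lie, map_add]
      have h := h2 (fstL f h1 h2 x) (fstL f h1 h2 y) (fstL f h1 h2 z)
      rw [skew f h1 ⁅fstL f h1 h2 y, fstL f h1 h2 z⁆ (fstL f h1 h2 x),
        ← lie_skew (fstL f h1 h2 z) (fstL f h1 h2 x), map_neg, LinearMap.neg_apply,
        skew f h1 ⁅fstL f h1 h2 x, fstL f h1 h2 z⁆ (fstL f h1 h2 y)] at h
      linear_combination (-1 : k) * h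

noncomputable instance : LieAlgebra k (Ext f h1 h2) where
  lie_smul c x y := by
    apply ext_ext
    · simp only [fst_lie, map_smul, lie_smul]
    · simp only [snd_lie, map_smul]

/-- the first component as a homomorphism of Lie algebras -/
noncomputable def fstH : Ext f h1 h2 →ₗ⁅k⁆ L :=
  { fstL f h1 h2 with map_lie' := fun {x y} => fst_lie f h1 h2 x y }

theorem fstH_apply (x : Ext f h1 h2) : fstH f h1 h2 x = fstL f h1 h2 x := rfl

end

theorem t_B2A : Pool.Agent.W622.BK.S_B2A.{u} := by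
  intro k _ L _ _ X hgen hquad f h1 h2 h3
  obtain ⟨m, b, hker⟩ := hquad
  set φ : FreeLieAlgebra k (Fin m) →ₗ⁅k⁆ L := freeTo k L (fun i => (b i : L)) with hφ
  let v : Fin m → Ext f h1 h2 := fun i => ((b i : L), (0 : k))
  let θ : FreeLieAlgebra k (Fin m) →ₗ⁅k⁆ Ext f h1 h2 := FreeLieAlgebra.lift k v
  have hφof : ∀ i, φ (FreeLieAlgebra.of k i) = (b i : L) := fun i => by
    rw [hφ]; exact FreeLieAlgebra.lift_of_apply (R := k) (fun i => (b i : L)) i
  have hθof : ∀ i, θ (FreeLieAlgebra.of k i) = v i := fun i =>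
    FreeLieAlgebra.lift_of_apply (R := k) v i
  have hcomp : (fstH f h1 h2).comp θ = φ := by
    apply FreeLieAlgebra.hom_ext
    intro i
    rw [LieHom.comp_apply, hθof, hφof]
    rfl
  have hfst : ∀ z, fstL f h1 h2 (θ z) = φ z := fun z => by
    rw [← hcomp]; rfl
  -- relations of degree two
  have hrel : ∀ r ∈ degTwo k m, φ r = 0 → θ r = 0 := by
    intro r hr hr0
    rw [degTwo, Submodule.mem_span_range_iff_exists_fun] at hr
    obtain ⟨c, hc⟩ := hr
    have hφr : ∑ p : Fin m × Fin m, c p • ⁅(b p.1 : L), (b p.2 : L)⁆ = 0 := by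
      rw [← hr0, ← hc, map_sum]
      refine Finset.sum_congr rfl fun p _ => ?_
      rw [map_smul, LieHom.map_lie, hφof, hφof]
    have h3' := h3 m (fun i => (b i : L)) (fun i i' => c (i, i')) (fun i => (b i).2)
      (by rw [← hφr, Fintype.sum_prod_type])
    apply ext_ext
    · rw [hfst, hr0, map_zero]
    · rw [map_zero, ← hc, map_sum, map_sum, ← h3', Fintype.sum_prod_type]
      refine Finset.sum_congr rfl fun i _ => ?_
      refine Finset.sum_congr rfl fun i' _ => ?_
      rw [map_smul, LieHom.map_lie, hθof, hθof, map_smul, snd_lie, smul_eq_mul]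
      rfl
  have hker' : φ.ker ≤ θ.ker := by
    refine le_trans hker ?_
    rw [LieSubmodule.lieSpan_le]
    rintro r ⟨hr, hr0⟩
    exact LieHom.mem_ker.mpr (hrel r hr hr0)
  -- surjectivity
  have hsurj : Function.Surjective φ := by
    rw [← LieHom.range_eq_top, eq_top_iff, ← hgen, LieSubalgebra.lieSpan_le]
    intro x hx
    have hx' : (⟨x, hx⟩ : X) = ∑ i, b.repr ⟨x, hx⟩ i • b i := (b.sum_repr _).symm
    refine (LieHom.mem_range φ x).mpr ⟨∑ i, b.repr ⟨x, hx⟩ i • FreeLieAlgebra.of k i, ?_⟩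
    rw [map_sum]
    have hx'' := congrArg (fun t : X => (t : L)) hx'
    simp only [Submodule.coe_sum, Submodule.coe_smul] at hx''
    refine Eq.trans ?_ hx''.symm
    refine Finset.sum_congr rfl fun i _ => ?_
    rw [map_smul, hφof]
  obtain ⟨s, hs⟩ := (φ : FreeLieAlgebra k (Fin m) →ₗ[k] L).exists_rightInverse_of_surjective
    (LinearMap.range_eq_top.mpr hsurj)
  have hs' : ∀ x, φ (s x) = x := fun x => LinearMap.congr_fun hs x
  have hwell : ∀ z, θ (s (φ z)) = θ z := by
    intro z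
    have h : s (φ z) - z ∈ φ.ker := LieHom.mem_ker.mpr (by rw [map_sub, hs', sub_self])
    have h' := LieHom.mem_ker.mp (hker' h)
    rw [map_sub] at h'
    exact sub_eq_zero.mp h'
  refine ⟨(sndL f h1 h2) ∘ₗ (θ : FreeLieAlgebra k (Fin m) →ₗ[k] Ext f h1 h2) ∘ₗ s,
    fun x y => ?_⟩
  have hx := hs' x
  have hy := hs' y
  rw [LinearMap.comp_apply, LinearMap.comp_apply]
  show f x y = sndL f h1 h2 (θ (s ⁅x, y⁆))
  have h4 : ⁅x, y⁆ = φ ⁅s x, s y⁆ := by rw [LieHom.map_lie, hx, hy]
  rw [h4, hwell, LieHom.map_lie, snd_lie, hfst, hfst, hx, hy]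

end Pool.Agent.W103.BK
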